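import Mathlib
import Pool.Agent.R259.RS.Round

set_option autoImplicit false

/-!
# The comparison inequality for `σ₂ / σ₁` for rotationally symmetric metrics

A rotationally symmetric metric `dr ^ 2 + f (r) ^ 2 g_{S^2}` on `S ^ 3` or on `S ^ 2 × S ^ 1` is
given by its profile `f`. Its Ricci tensor has the eigenvalues `ricR = 2 Kr` (direction `∂_r`) and
`ricT = Kr + Kt` (twice), where `Kr = - f'' / f` and `Kt = (1 - f' ^ 2) / f ^ 2` are the sectional
curvatures; `lamR`, `lamT`, `lamT` are the eigenvalues of the Schouten tensor `Ric - (R / 4) g`, and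
the volume element is `4 π f ^ 2 dr`. All this is in `Pool.Agent.R259.RS.Base`.

The proof is a calibration. Let `m` be the maximum of `f` and `c = √(1 - f ^ 2 / m ^ 2)`. Positive
scalar curvature gives `|f'| ≤ 1`, and for a suitable function `ψ` the derivative of
`Φ = ψ (f) - (3 f' - f' ^ 3) / (3 f) - f f' / (2 m ^ 2)` minus the density of
`(∫ σ₂ + (1 / (2 m ^ 2)) ∫ σ₁) / (4 π)` is `(f' - c) ^ 2 (3 - f' ^ 2 - 2 c f') / (12 f ^ 2) ≥ 0`.
Integrating from both poles to the maximum gives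
`(1 / 2 + 1 / (2 m ^ 2)) ∫ σ₁ ≤ ∫ σ₂ + (1 / (2 m ^ 2)) ∫ σ₁ ≤ 3 π ^ 2 / m`, and `m + 1 / m ≥ 2`.
-/

namespace Pool.Agent.Results.MP_7221a0_gt.RotationallySymmetric

open Set Pool.Agent.R259.RS

/-- **The inequality of Q1 for rotationally symmetric metrics.** -/
theorem result :
    -- metrics on `S ^ 3` with positive scalar curvature and `σ₂ / σ₁ ≥ 1 / 2`
    (∀ (f : ℝ → ℝ) (L : ℝ), IsSphere f L → (∀ r ∈ Ioo 0 L, 0 < scal f r) →
      (∀ r ∈ Ioo 0 L, 1 / 2 ≤ sigma2 f r / sigma1 f r) →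
      total (sigma1 f) f L ≤ 3 * Real.pi ^ 2) ∧
    -- there are no such metrics on `S ^ 2 × S ^ 1`
    (¬ ∃ (f : ℝ → ℝ) (L : ℝ), IsCircle f L ∧ (∀ r, 0 < scal f r) ∧
      ∀ r, 1 / 2 ≤ sigma2 f r / sigma1 f r) ∧
    -- the unit sphere
    (IsSphere Real.sin Real.pi ∧ (∀ r ∈ Ioo 0 Real.pi, 0 < scal Real.sin r) ∧
      (∀ r ∈ Ioo 0 Real.pi, sigma2 Real.sin r / sigma1 Real.sin r = 1 / 2) ∧
      total (sigma1 Real.sin) Real.sin Real.pi = 3 * Real.pi ^ 2) := by
  have hpi := Real.pi_pos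
  refine ⟨fun f L h hs hq => h.S_le hs hq, ?_, isSphere_sin, fun r hr => ?_, fun r hr => ?_,
    total1_sin⟩
  · rintro ⟨f, L, h, hs, hq⟩
    have h1 := (h.signs hs).2
    have h2 : 0 ≤ total (sigma2 f) f L := by
      unfold total
      refine intervalIntegral.integral_nonneg h.L_pos.le fun r _ => ?_
      have h3 : 0 < sigma1 f r := by
        rw [sigma1_eq]
        have := hs r
        positivity
      have h4 := hq r
      rw [le_div_iff₀ h3] at h4
      have h5 : 0 ≤ sigma2 f r := by linarith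
      positivity
    linarith
  · rw [scal_sin hr]
    norm_num
  · have h := isSphere_sin.pos r hr
    have h1 := sigma1_mul h.ne'
    have h2 := sigma2_mul h.ne'
    rw [x1_sin] at h1
    rw [y1_sin] at h2
    have h3 : Real.sin r ^ 2 ≠ 0 := by positivity
    have h4 : sigma1 Real.sin r = 3 / 2 := mul_right_cancel₀ h3 h1
    have h5 : sigma2 Real.sin r = 3 / 4 := mul_right_cancel₀ h3 h2
    rw [h4, h5]
    norm_num

end Pool.Agent.Results.MP_7221a0_gt.RotationallySymmetric
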